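import Pool.Agent.K1H53.BI.Plan

/-!
# Branching internal DLA: one-step inequalities for the functions with `VV`
-/

set_option autoImplicit false

open scoped ENNReal
open Finset

namespace Pool.Agent.K1H38.BI

open Pool.Agent.K1H53.BI

theorem Ex_ofReal (ν : PMF ℕ) (g : ℕ → ℝ) (hg : ∀ k, 0 ≤ g k) (S : ℝ)
    (hs : HasSum (fun k => (ν k).toReal * g k) S) :
    Ex ν (fun k => ENNReal.ofReal (g k)) = ENNReal.ofReal S := by
  unfold Ex
  rw [← hs.tsum_eq, ENNReal.ofReal_tsum_of_nonneg (fun k => by have := hg k; positivity) hs.summable]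
  refine tsum_congr fun k => ?_
  rw [ENNReal.ofReal_mul ENNReal.toReal_nonneg, ENNReal.ofReal_toReal (PMF.apply_ne_top ν k)]

theorem hasSum_one (ν : PMF ℕ) : HasSum (fun k => (ν k).toReal) 1 := by
  have h1 : ∑' k, ν k ≠ ⊤ := by rw [ν.tsum_coe]; exact ENNReal.one_ne_top
  have h2 := ENNReal.hasSum_toReal h1
  have h3 : ∑' k, (ν k).toReal = 1 := by
    rw [← ENNReal.tsum_toReal_eq (PMF.apply_ne_top ν), ν.tsum_coe]
    simp
  rwa [h3] at h2

/-- sums of cubic polynomials -/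
theorem poly {ν : PMF ℕ} {σ2 M : ℝ} (h : Off ν σ2 M) :
    ∃ μ3 : ℝ, |μ3| ≤ M ∧ ∀ c0 c1 c2 c3 : ℝ,
      HasSum (fun k : ℕ => (ν k).toReal * (c0 + c1 * ((k : ℝ) - 1) + c2 * ((k : ℝ) - 1) ^ 2 +
        c3 * ((k : ℝ) - 1) ^ 3)) (c0 + c2 * σ2 + c3 * μ3) := by
  have h0 := hasSum_one ν
  have h3 : Summable (fun k : ℕ => (ν k).toReal * ((k : ℝ) - 1) ^ 3) := by
    refine Summable.of_norm_bounded (h0.summable.add h.sum4) fun k => ?_
    have hp : 0 ≤ (ν k).toReal := ENNReal.toReal_nonneg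
    rw [norm_mul, Real.norm_of_nonneg hp, ← mul_one_add]
    refine mul_le_mul_of_nonneg_left ?_ hp
    rw [Real.norm_eq_abs, abs_le]
    constructor
    · nlinarith [sq_nonneg (((k : ℝ) - 1) ^ 2), sq_nonneg (((k : ℝ) - 1)),
        sq_nonneg (((k : ℝ) - 1) ^ 2 + ((k : ℝ) - 1)), sq_nonneg (((k : ℝ) - 1) ^ 2 - 1),
        sq_nonneg (((k : ℝ) - 1) + 1)]
    · nlinarith [sq_nonneg (((k : ℝ) - 1) ^ 2), sq_nonneg (((k : ℝ) - 1)),
        sq_nonneg (((k : ℝ) - 1) ^ 2 - ((k : ℝ) - 1)), sq_nonneg (((k : ℝ) - 1) ^ 2 - 1),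
        sq_nonneg (((k : ℝ) - 1) - 1)]
  refine ⟨∑' k : ℕ, (ν k).toReal * ((k : ℝ) - 1) ^ 3, h.m3, fun c0 c1 c2 c3 => ?_⟩
  have hs := (((h0.mul_left c0).add (h.m1.mul_left c1)).add (h.m2.mul_left c2)).add
    (h3.hasSum.mul_left c3)
  have e1 : (fun k : ℕ => (ν k).toReal * (c0 + c1 * ((k : ℝ) - 1) + c2 * ((k : ℝ) - 1) ^ 2 +
        c3 * ((k : ℝ) - 1) ^ 3)) = (fun b : ℕ => c0 * (ν b).toReal +
        c1 * ((ν b).toReal * ((b : ℝ) - 1)) + c2 * ((ν b).toReal * ((b : ℝ) - 1) ^ 2) +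
        c3 * ((ν b).toReal * ((b : ℝ) - 1) ^ 3)) := by
    funext k; ring
  have e2 : c0 + c2 * σ2 + c3 * ∑' k : ℕ, (ν k).toReal * ((k : ℝ) - 1) ^ 3 =
      c0 * 1 + c1 * 0 + c2 * σ2 + c3 * ∑' k : ℕ, (ν k).toReal * ((k : ℝ) - 1) ^ 3 := by
    ring
  rw [e1, e2]
  exact hs

theorem key (hGen : S_GEN) {ν : PMF ℕ} {R : ℕ} {s : St} (hg : Good s) (hp : Proc R s)
    (φ : ℕ → ℝ) (hφ : ∀ n, 0 ≤ φ n) (B : ℝ)
    (H : ∀ h : ℕ, 1 ≤ h → h ≤ VV R s → h ≤ (R + 1) ^ 2 → ∃ S : ℝ,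
      HasSum (fun k : ℕ => (ν k).toReal *
        (φ (yy s - 1 + k) * (((VV R s : ℝ) - 1) + ((k : ℝ) - 1) * ((h : ℝ) - 1)))) S ∧ S ≤ B) :
    Ex (stepD ν R s) (fun s' => ENNReal.ofReal (φ (yy s')) * (VV R s' : ℝ≥0∞)) ≤
      ENNReal.ofReal B := by
  obtain ⟨-, h2, h3⟩ := (hGen ν R s hg).2 hp
  refine (h2 (fun n => ENNReal.ofReal (φ n))).trans ?_
  rw [← Ex_const (PMF.uniformOfFinset (range s.L.length)
    ⟨0, Finset.mem_range.2 (List.length_pos_iff.2 hp.1)⟩) (ENNReal.ofReal B)]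
  refine Ex_mono _ fun i hi => ?_
  have hi' : i ∈ range s.L.length := by
    by_contra hcon
    exact hi (PMF.uniformOfFinset_apply_of_notMem _ hcon)
  obtain ⟨h4, h5⟩ := h3 i hi'
  set h := (R + 1) ^ 2 - nsq (s.L.getD i 0) with hh
  have h6 : h ≤ (R + 1) ^ 2 := Nat.sub_le _ _
  obtain ⟨S, hS, hSB⟩ := H h h4 h5 h6
  have hnat : ∀ k : ℕ, (((VV R s - h) + k * (h - 1) : ℕ) : ℝ) =
      ((VV R s : ℝ) - 1) + ((k : ℝ) - 1) * ((h : ℝ) - 1) := by
    intro k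
    rw [Nat.cast_add, Nat.cast_sub h5, Nat.cast_mul, Nat.cast_sub h4]
    push_cast
    ring
  have hnn : ∀ k : ℕ, 0 ≤ φ (yy s - 1 + k) * (((VV R s : ℝ) - 1) + ((k : ℝ) - 1) * ((h : ℝ) - 1)) := by
    intro k
    rw [← hnat k]
    exact mul_nonneg (hφ _) (Nat.cast_nonneg _)
  calc Ex ν (fun k => ENNReal.ofReal (φ (yy s - 1 + k)) *
        (((VV R s - h) + k * (h - 1) : ℕ) : ℝ≥0∞))
      = Ex ν (fun k => ENNReal.ofReal
          (φ (yy s - 1 + k) * (((VV R s : ℝ) - 1) + ((k : ℝ) - 1) * ((h : ℝ) - 1)))) := by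
        refine Ex_congr _ fun k _ => ?_
        rw [← hnat k, ENNReal.ofReal_mul (hφ _), ENNReal.ofReal_natCast]
    _ = ENNReal.ofReal S := Ex_ofReal ν _ hnn S hS
    _ ≤ ENNReal.ofReal B := ENNReal.ofReal_le_ofReal hSB

theorem yy_pos {R : ℕ} {s : St} (hp : Proc R s) : 1 ≤ yy s := by
  have := List.length_pos_iff.2 hp.1
  unfold yy
  omega

theorem yy_cast {R : ℕ} {s : St} (hp : Proc R s) (k : ℕ) :
    ((yy s - 1 + k : ℕ) : ℝ) = (yy s : ℝ) + ((k : ℝ) - 1) := by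
  rw [Nat.cast_add, Nat.cast_sub (yy_pos hp)]
  push_cast
  ring

theorem VV_pos (hGen : S_GEN) (ν : PMF ℕ) {R : ℕ} {s : St} (hg : Good s) (hp : Proc R s) :
    1 ≤ VV R s := by
  obtain ⟨-, -, h3⟩ := (hGen ν R s hg).2 hp
  have h0 : 0 ∈ range s.L.length := Finset.mem_range.2 (List.length_pos_iff.2 hp.1)
  obtain ⟨h4, h5⟩ := h3 0 h0
  exact h4.trans h5

theorem t_TWO : S_GEN → S_TWO := by
  intro hGen ν σ2 M R s t hoff hg
  by_cases hp : Proc R s
  · have hind : ind (Proc R) s = 1 := by simp [ind, hp]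
    obtain ⟨μ3, hμ, hpoly⟩ := poly hoff
    have hV1 : (1 : ℝ) ≤ VV R s := by exact_mod_cast VV_pos hGen ν hg hp
    have hM := hoff.one
    have hσ := hoff.le
    have hσ0 := hoff.pos
    have hy1 : (1 : ℝ) ≤ yy s := by exact_mod_cast yy_pos hp
    have hρ : (1 : ℝ) ≤ ((R : ℝ) + 1) ^ 2 := by
      have : (0 : ℝ) ≤ R := Nat.cast_nonneg _
      nlinarith
    refine ⟨?_, ?_, ?_⟩
    · have h1 := key hGen hg hp (ν := ν) (fun _ => 1) (fun _ => zero_le_one) ((VV R s : ℝ) - 1)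
        (fun h h1 h2 h3 => ⟨_, by
          have := hpoly ((VV R s : ℝ) - 1) ((h : ℝ) - 1) 0 0
          convert this using 1
          funext k
          ring, by simp⟩)
      have e1 : Ex (stepD ν R s) (fun s' => (VV R s' : ℝ≥0∞)) =
          Ex (stepD ν R s) (fun s' => ENNReal.ofReal 1 * (VV R s' : ℝ≥0∞)) := by simp
      rw [e1, hind]
      refine (add_le_add_left h1 1).trans (le_of_eq ?_)
      rw [← ENNReal.ofReal_one, ← ENNReal.ofReal_add (by linarith) zero_le_one,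
        ← ENNReal.ofReal_natCast]
      congr 1
      ring
    · have h1 := key hGen hg hp (ν := ν) (fun n => (n : ℝ)) (fun n => Nat.cast_nonneg n)
        ((yy s : ℝ) * ((VV R s : ℝ) - 1) + M * ((R : ℝ) + 1) ^ 2)
        (fun h h1 h2 h3 => ⟨_, by
          have := hpoly ((yy s : ℝ) * ((VV R s : ℝ) - 1))
            (((VV R s : ℝ) - 1) + (yy s : ℝ) * ((h : ℝ) - 1)) ((h : ℝ) - 1) 0
          convert this using 1
          funext k
          rw [yy_cast hp]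
          ring, by
          have h4 : (1 : ℝ) ≤ h := by exact_mod_cast h1
          have h5 : (h : ℝ) ≤ ((R : ℝ) + 1) ^ 2 := by exact_mod_cast h3
          nlinarith [mul_le_mul hσ h5 (by linarith) (by linarith)]⟩)
      have e1 : Ex (stepD ν R s) (fun s' => (yy s' : ℝ≥0∞) * (VV R s' : ℝ≥0∞)) =
          Ex (stepD ν R s) (fun s' => ENNReal.ofReal (yy s' : ℝ) * (VV R s' : ℝ≥0∞)) := by
        simp only [ENNReal.ofReal_natCast]
      rw [e1, hind, mul_one, mul_one]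
      refine (add_le_add_left h1 _).trans (le_of_eq ?_)
      have hn1 : 0 ≤ (yy s : ℝ) * ((VV R s : ℝ) - 1) + M * ((R : ℝ) + 1) ^ 2 := by
        have : 0 ≤ (yy s : ℝ) * ((VV R s : ℝ) - 1) := mul_nonneg (by linarith) (by linarith)
        nlinarith
      rw [← ENNReal.ofReal_natCast (yy s), ← ENNReal.ofReal_natCast (VV R s),
        ← ENNReal.ofReal_add hn1 (by linarith), ← ENNReal.ofReal_mul (by linarith),
        ← ENNReal.ofReal_add (by positivity) (by positivity)]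
      congr 1
      ring
    · set w : ℝ := (yy s : ℝ) - t with hw
      have h1 := key hGen hg hp (ν := ν) (fun n => ((n : ℝ) - t) ^ 2) (fun n => sq_nonneg _)
        (w ^ 2 * (VV R s : ℝ) - w ^ 2 / 2 + M * (VV R s : ℝ) + 4 * M ^ 2 * ((R : ℝ) + 1) ^ 4)
        (fun h h1 h2 h3 => ⟨_, by
          have := hpoly (w ^ 2 * ((VV R s : ℝ) - 1))
            (2 * w * ((VV R s : ℝ) - 1) + w ^ 2 * ((h : ℝ) - 1))
            (((VV R s : ℝ) - 1) + 2 * w * ((h : ℝ) - 1)) ((h : ℝ) - 1)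
          convert this using 1
          funext k
          rw [yy_cast hp]
          have : (yy s : ℝ) + ((k : ℝ) - 1) - t = w + ((k : ℝ) - 1) := by rw [hw]; ring
          rw [this]
          ring, by
          have h4 : (1 : ℝ) ≤ h := by exact_mod_cast h1
          have h5 : (h : ℝ) ≤ ((R : ℝ) + 1) ^ 2 := by exact_mod_cast h3
          set ρ : ℝ := ((R : ℝ) + 1) ^ 2 with hρd
          have hr : ((R : ℝ) + 1) ^ 4 = ρ ^ 2 := by rw [hρd]; ring
          rw [hr]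
          have a1 : ((VV R s : ℝ) - 1) * σ2 ≤ M * (VV R s : ℝ) := by nlinarith
          have a2 : 2 * w * ((h : ℝ) - 1) * σ2 ≤ w ^ 2 / 2 + 2 * M ^ 2 * ρ ^ 2 := by
            have b1 : ((h : ℝ) - 1) * σ2 ≤ ρ * M :=
              mul_le_mul (by linarith) hσ hσ0.le (by linarith)
            have b2 : 0 ≤ ((h : ℝ) - 1) * σ2 := mul_nonneg (by linarith) hσ0.le
            have b3 : (((h : ℝ) - 1) * σ2) ^ 2 ≤ (ρ * M) ^ 2 := by gcongr
            nlinarith [sq_nonneg (w - 2 * (((h : ℝ) - 1) * σ2))]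
          have a3 : ((h : ℝ) - 1) * μ3 ≤ 2 * M ^ 2 * ρ ^ 2 := by
            have b1 : μ3 ≤ M := (le_abs_self _).trans hμ
            have b2 : ((h : ℝ) - 1) * μ3 ≤ ((h : ℝ) - 1) * M :=
              mul_le_mul_of_nonneg_left b1 (by linarith)
            have b3 : ((h : ℝ) - 1) * M ≤ ρ * M := mul_le_mul_of_nonneg_right (by linarith) (by linarith)
            have b4 : 1 ≤ ρ * M := by nlinarith
            nlinarith [mul_le_mul_of_nonneg_left b4 (by linarith : (0 : ℝ) ≤ ρ * M)]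
          nlinarith⟩)
      have e1 : Ex (stepD ν R s) (fun s' => ENNReal.ofReal (((yy s' : ℝ) - t) ^ 2) *
          (VV R s' : ℝ≥0∞)) =
          Ex (stepD ν R s) (fun s' => ENNReal.ofReal ((fun n : ℕ => ((n : ℝ) - t) ^ 2) (yy s')) *
            (VV R s' : ℝ≥0∞)) := rfl
      rw [e1, hind, mul_one, mul_one]
      refine (add_le_add_left h1 _).trans (le_of_eq ?_)
      have hn1 : 0 ≤ w ^ 2 * (VV R s : ℝ) - w ^ 2 / 2 + M * (VV R s : ℝ) +
          4 * M ^ 2 * ((R : ℝ) + 1) ^ 4 := by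
        have c1 : 0 ≤ w ^ 2 * (VV R s : ℝ) - w ^ 2 / 2 := by nlinarith [sq_nonneg w]
        have c2 : 0 ≤ M * (VV R s : ℝ) := by positivity
        have c3 : 0 ≤ 4 * M ^ 2 * ((R : ℝ) + 1) ^ 4 := by positivity
        linarith
      have hM0 : 0 ≤ M := by linarith
      rw [← ENNReal.ofReal_natCast (VV R s), ← ENNReal.ofReal_add hn1 (by positivity),
        ← ENNReal.ofReal_mul (sq_nonneg w), ← ENNReal.ofReal_mul hM0,
        ← ENNReal.ofReal_add (by positivity) (by positivity),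
        ← ENNReal.ofReal_add (by positivity) (by positivity)]
      congr 1
      ring
  · obtain ⟨s', h1, h2, h3, -⟩ := (hGen ν R s hg).1 hp
    have hind : ind (Proc R) s = 0 := by simp [ind, hp]
    rw [hind, h1]
    simp only [Ex_pure, mul_zero, add_zero, h2, h3]
    exact ⟨le_rfl, le_rfl, le_rfl⟩

end Pool.Agent.K1H38.BI
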